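import Pool.Agent.V5helper39.BM.Stm

set_option autoImplicit false

/-!
# Invariant quadratic form from the fixed point theorem (S_FPH, S_SEP)
-/

namespace Pool.Agent.V5helper21.BM

open Filter Topology Asymptotics Set
open Pool.Agent.V5helper39.BM

/-- bilinear symmetric forms with bounds, as functions on pairs -/
structure Bil (E : Type) [NormedAddCommGroup E] [NormedSpace ℝ E] (c C : ℝ)
    (q : E × E → ℝ) : Prop where
  addl : ∀ v v' w, q (v + v', w) = q (v, w) + q (v', w)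
  smull : ∀ (r : ℝ) v w, q (r • v, w) = r * q (v, w)
  symm : ∀ v w, q (v, w) = q (w, v)
  low : ∀ w, c * ‖w‖ ^ 2 ≤ q (w, w)
  bd : ∀ v w, |q (v, w)| ≤ C * (‖v‖ * ‖w‖)

section
variable {E : Type} [NormedAddCommGroup E] [NormedSpace ℝ E]

lemma Bil.addr {c C : ℝ} {q : E × E → ℝ} (h : Bil E c C q) (v w w' : E) :
    q (v, w + w') = q (v, w) + q (v, w') := by
  rw [h.symm, h.addl, h.symm w, h.symm w']

lemma Bil.smulr {c C : ℝ} {q : E × E → ℝ} (h : Bil E c C q) (r : ℝ) (v w : E) :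
    q (v, r • w) = r * q (v, w) := by
  rw [h.symm, h.smull, h.symm w]

lemma bil_closed (c C : ℝ) : IsClosed {q : E × E → ℝ | Bil E c C q} := by
  have : {q : E × E → ℝ | Bil E c C q} =
      (⋂ (v : E) (v' : E) (w : E), {q | q (v + v', w) = q (v, w) + q (v', w)}) ∩
      (⋂ (r : ℝ) (v : E) (w : E), {q | q (r • v, w) = r * q (v, w)}) ∩
      (⋂ (v : E) (w : E), {q | q (v, w) = q (w, v)}) ∩
      (⋂ (w : E), {q | c * ‖w‖ ^ 2 ≤ q (w, w)}) ∩
      (⋂ (v : E) (w : E), {q | |q (v, w)| ≤ C * (‖v‖ * ‖w‖)}) := by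
    ext q
    simp only [mem_ofPred_eq, mem_inter_iff, mem_iInter]
    exact ⟨fun h => ⟨⟨⟨⟨h.addl, h.smull⟩, h.symm⟩, h.low⟩, h.bd⟩,
      fun h => ⟨h.1.1.1.1, h.1.1.1.2, h.1.1.2, h.1.2, h.2⟩⟩
  rw [this]
  refine IsClosed.inter (IsClosed.inter (IsClosed.inter (IsClosed.inter ?_ ?_) ?_) ?_) ?_
  · exact isClosed_iInter fun _ => isClosed_iInter fun _ => isClosed_iInter fun _ =>
      isClosed_eq (by fun_prop) (by fun_prop)
  · exact isClosed_iInter fun _ => isClosed_iInter fun _ => isClosed_iInter fun _ =>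
      isClosed_eq (by fun_prop) (by fun_prop)
  · exact isClosed_iInter fun _ => isClosed_iInter fun _ =>
      isClosed_eq (by fun_prop) (by fun_prop)
  · exact isClosed_iInter fun _ => isClosed_le (by fun_prop) (by fun_prop)
  · exact isClosed_iInter fun _ => isClosed_iInter fun _ =>
      isClosed_le (by fun_prop) (by fun_prop)

lemma bil_convex (c C : ℝ) : Convex ℝ {q : E × E → ℝ | Bil E c C q} := by
  intro q hq q' hq' a b ha hb hab
  have hq : Bil E c C q := hq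
  have hq' : Bil E c C q' := hq'
  have hv : ∀ z, (a • q + b • q') z = a * q z + b * q' z := fun z => by
    simp [Pi.add_apply, Pi.smul_apply]
  refine ⟨fun v v' w => ?_, fun r v w => ?_, fun v w => ?_, fun w => ?_, fun v w => ?_⟩
  · rw [hv, hv, hv, hq.addl, hq'.addl]; ring
  · rw [hv, hv, hq.smull, hq'.smull]; ring
  · rw [hv, hv, hq.symm, hq'.symm]
  · rw [hv]
    have h1 := mul_le_mul_of_nonneg_left (hq.low w) ha
    have h2 := mul_le_mul_of_nonneg_left (hq'.low w) hb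
    have h3 : a * (c * ‖w‖ ^ 2) + b * (c * ‖w‖ ^ 2) = c * ‖w‖ ^ 2 := by
      linear_combination (c * ‖w‖ ^ 2) * hab
    linarith
  · rw [hv]
    refine (abs_add_le _ _).trans ?_
    rw [abs_mul, abs_mul, abs_of_nonneg ha, abs_of_nonneg hb]
    have h1 := mul_le_mul_of_nonneg_left (hq.bd v w) ha
    have h2 := mul_le_mul_of_nonneg_left (hq'.bd v w) hb
    have h3 : a * (C * (‖v‖ * ‖w‖)) + b * (C * (‖v‖ * ‖w‖)) = C * (‖v‖ * ‖w‖) := by
      linear_combination (C * (‖v‖ * ‖w‖)) * hab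
    linarith

/-- Cauchy-Schwarz -/
lemma cs_bound {C : ℝ} (B : E →L[ℝ] E →L[ℝ] ℝ) (hs : ∀ v w, B v w = B w v)
    (h0 : ∀ w, 0 ≤ B w w) (hC : ∀ w, B w w ≤ C * ‖w‖ ^ 2) (v w : E) :
    |B v w| ≤ C * (‖v‖ * ‖w‖) := by
  by_cases hv : v = 0
  · simp [hv]
  by_cases hw : w = 0
  · simp [hw]
  have hv' : 0 < ‖v‖ := norm_pos_iff.2 hv
  have hw' : 0 < ‖w‖ := norm_pos_iff.2 hw
  -- `B (‖w‖ v ± ‖v‖ w) ≥ 0`
  have e1 : ∀ a b : ℝ, B (a • v + b • w) (a • v + b • w)
      = a ^ 2 * B v v + 2 * a * b * B v w + b ^ 2 * B w w := by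
    intro a b
    simp only [map_add, map_smul, add_apply, smul_apply,
      smul_eq_mul]
    rw [hs w v]; ring
  have h1 := h0 (‖w‖ • v + ‖v‖ • w)
  have h2 := h0 (‖w‖ • v + (-‖v‖) • w)
  rw [e1] at h1 h2
  have h3 := hC v
  have h4 := hC w
  have h5 : ‖w‖ ^ 2 * B v v ≤ C * ‖v‖ ^ 2 * ‖w‖ ^ 2 := by nlinarith [sq_nonneg ‖w‖]
  have h6 : ‖v‖ ^ 2 * B w w ≤ C * ‖v‖ ^ 2 * ‖w‖ ^ 2 := by nlinarith [sq_nonneg ‖v‖]
  have hp : 0 < ‖v‖ * ‖w‖ := mul_pos hv' hw'
  rw [abs_le]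
  constructor
  · by_contra hcon
    push Not at hcon
    nlinarith
  · by_contra hcon
    push Not at hcon
    nlinarith

variable {f : E → E →L[ℝ] ℝ} {A : E → E →L[ℝ] E →L[ℝ] ℝ} {c C : ℝ}

lemma hs_bil (h : HF E f A c C) : HS E A ⊆ {q : E × E → ℝ | Bil E c C q} := by
  rintro q ⟨x, hx, rfl⟩
  refine ⟨fun v v' w => by simp, fun r v w => by simp, fun v w => h.symm x hx v w,
    fun w => h.low x hx w, fun v w => ?_⟩
  exact cs_bound (A x) (h.symm x hx)
    (fun w => le_trans (mul_nonneg h.cpos.le (by positivity)) (h.low x hx w)) (h.up x hx) v w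

lemma hs_closure_bil (h : HF E f A c C) {q : E × E → ℝ} (hq : q ∈ closure (HS E A)) :
    Bil E c C q :=
  closure_minimal (hs_bil h) (bil_closed c C) hq

lemma hs_hull_bil (h : HF E f A c C) {q : E × E → ℝ}
    (hq : q ∈ closure (convexHull ℝ (closure (HS E A)))) : Bil E c C q :=
  closure_minimal (convexHull_min (closure_minimal (hs_bil h) (bil_closed c C)) (bil_convex c C))
    (bil_closed c C) hq

lemma compact_of_bd {Z : Type*} (ω : Z → ℝ) (K : Set (Z → ℝ)) (hK : IsClosed K) (C : ℝ)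
    (hb : ∀ q ∈ K, ∀ z, |q z| ≤ C * ω z) : IsCompact K := by
  have h1 : IsCompact (Set.univ.pi fun z => Set.Icc (-(C * ω z)) (C * ω z)) :=
    isCompact_univ_pi fun z => isCompact_Icc
  refine h1.of_isClosed_subset hK fun q hq => ?_
  intro z _
  exact abs_le.1 (hb q hq z)

/-- the diagonal action -/
@[reducible] def act (E : Type) [NormedAddCommGroup E] [NormedSpace ℝ E] :
    MulAction (E ≃ₗᵢ[ℝ] E) (E × E) where
  smul g p := (g p.1, g p.2)
  one_smul _ := rfl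
  mul_smul _ _ _ := rfl

end

theorem t_FPH : S_FPH := by
  intro E _ _ f A c C h htr hsep
  let _ : MulAction (E ≃ₗᵢ[ℝ] E) (E × E) := act E
  have hsm : ∀ (g : E ≃ₗᵢ[ℝ] E) (p : E × E), g • p = (g p.1, g p.2) := fun _ _ => rfl
  by_cases hE : ∃ e : E, ‖e‖ = 1
  swap
  · -- trivial space
    have h0 : ∀ v : E, v = 0 := by
      intro v
      by_contra hv
      refine hE ⟨‖v‖⁻¹ • v, ?_⟩
      rw [norm_smul, norm_inv, norm_norm, inv_mul_cancel₀ (norm_ne_zero_iff.2 hv)]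
    intro x y
    rw [h0 x, h0 y]; simp
  obtain ⟨e, he⟩ := hE
  set Q : Set (E × E → ℝ) := closure (HS E A) with hQ
  set K : Set (E × E → ℝ) := closure (convexHull ℝ Q) with hK
  have hbd : ∀ q ∈ K, ∀ z, |q z| ≤ C * om E z := by
    intro q hq z
    exact (hs_hull_bil h hq).bd z.1 z.2
  have hKc : IsCompact K := compact_of_bd (om E) K isClosed_closure C hbd
  have hQK : Q ⊆ K := (subset_convexHull ℝ Q).trans subset_closure
  have hQc : IsCompact Q := hKc.of_isClosed_subset isClosed_closure hQK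
  have hKsep : WSep (om E) K := haydon (om E) (fun z => by unfold om; positivity) Q hQc C
    (fun q hq => hbd q (hQK hq)) hsep
  have hne : K.Nonempty := by
    refine ⟨fun p => A e p.1 p.2, hQK (subset_closure ⟨e, he, rfl⟩)⟩
  have hHSinv : ∀ g : E ≃ₗᵢ[ℝ] E, ∀ q ∈ HS E A, tr g q ∈ HS E A := by
    rintro g q ⟨x, hx, rfl⟩
    refine ⟨g.symm x, by rw [LinearIsometryEquiv.norm_map]; exact hx, ?_⟩
    funext p
    rw [tr_apply, hsm]
    have h1 := h.equi (g.symm x) (by rw [LinearIsometryEquiv.norm_map]; exact hx) g p.1 p.2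
    rw [LinearIsometryEquiv.apply_symm_apply] at h1
    exact h1
  have hQinv : ∀ g : E ≃ₗᵢ[ℝ] E, ∀ q ∈ Q, tr g q ∈ Q := by
    intro g q hq
    exact map_mem_closure (tr_continuous g) hq (hHSinv g)
  have hCinv : ∀ g : E ≃ₗᵢ[ℝ] E, ∀ q ∈ convexHull ℝ Q, tr g q ∈ convexHull ℝ Q := by
    intro g q hq
    have h1 : (tr g q : E × E → ℝ) ∈ (trL g : (E × E → ℝ) →L[ℝ] (E × E → ℝ)).toLinearMap ''
        convexHull ℝ Q := ⟨q, hq, rfl⟩
    rw [LinearMap.image_convexHull] at h1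
    refine convexHull_mono ?_ h1
    rintro _ ⟨q', hq', rfl⟩
    exact hQinv g q' hq'
  have hKinv : ∀ g : E ≃ₗᵢ[ℝ] E, ∀ q ∈ K, tr g q ∈ K := by
    intro g q hq
    exact map_mem_closure (tr_continuous g) hq (hCinv g)
  obtain ⟨q, hq, hfix⟩ := fixed_point (G := E ≃ₗᵢ[ℝ] E) (om E) (fun z => by unfold om; positivity)
    (fun g z => by rw [hsm]; simp [om]) K hKc (convex_convexHull ℝ Q).closure hne hKinv C hbd hKsep
  have hB := hs_hull_bil h hq
  have hinv : ∀ (g : E ≃ₗᵢ[ℝ] E) (v w : E), q (g v, g w) = q (v, w) := by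
    intro g v w
    have := congrFun (hfix g) (v, w)
    rw [tr_apply, hsm] at this
    exact this
  set b : ℝ := q (e, e) with hb
  have hb0 : 0 < b := by
    have := hB.low e
    rw [he] at this
    have := h.cpos
    linarith
  have hbv : ∀ v : E, q (v, v) = b * (‖v‖ * ‖v‖) := by
    intro v
    by_cases hv : v = 0
    · subst hv
      have := hB.smull 0 (0 : E) 0
      rw [zero_smul] at this
      rw [this]; simp
    · have hv' : ‖v‖ ≠ 0 := norm_ne_zero_iff.2 hv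
      have hu : ‖(‖v‖⁻¹ • v)‖ = 1 := by
        rw [norm_smul, norm_inv, norm_norm, inv_mul_cancel₀ hv']
      obtain ⟨T, hT⟩ := htr e _ he hu
      have h1 := hinv T e e
      rw [hT] at h1
      have h2 : v = ‖v‖ • (‖v‖⁻¹ • v) := by
        rw [smul_smul, mul_inv_cancel₀ hv', one_smul]
      have h3 : q (v, v) = ‖v‖ * (‖v‖ * q (‖v‖⁻¹ • v, ‖v‖⁻¹ • v)) := by
        rw [← hB.smulr, ← hB.smull, ← h2]
      rw [h3, h1]; ring
  intro x y
  have e1 : q (x + y, x + y) = q (x, x) + 2 * q (x, y) + q (y, y) := by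
    rw [hB.addl, hB.addr, hB.addr, hB.symm y x]; ring
  have e2 : q (x - y, x - y) = q (x, x) - 2 * q (x, y) + q (y, y) := by
    have hxy : x - y = x + (-1 : ℝ) • y := by rw [neg_one_smul, sub_eq_add_neg]
    rw [hxy, hB.addl, hB.addr, hB.addr, hB.smull, hB.smulr, hB.smulr, hB.smull, hB.symm y x]; ring
  rw [hbv] at e1 e2
  have hx := hbv x
  have hy := hbv y
  have : b * (‖x + y‖ * ‖x + y‖ + ‖x - y‖ * ‖x - y‖) = b * (2 * (‖x‖ * ‖x‖ + ‖y‖ * ‖y‖)) := by
    linarith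
  exact mul_left_cancel₀ hb0.ne' this

theorem t_SEP : S_SEP := by
  intro E _ _ f A c C h hsep δ hδ
  obtain ⟨S, hSc, hS⟩ := hsep
  -- closure elements are bounded bilinear forms
  have hrep : ∀ q ∈ closure (HS E A), ∃ B : E →L[ℝ] E →L[ℝ] ℝ,
      (fun p : E × E => B p.1 p.2) = q := by
    intro q hq
    have hB := hs_closure_bil h hq
    refine ⟨LinearMap.mkContinuous₂ (LinearMap.mk₂ ℝ (fun v w => q (v, w)) hB.addl
      (fun r v w => hB.smull r v w) (fun v w w' => hB.addr v w w')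
      (fun r v w => hB.smulr r v w)) C ?_, ?_⟩
    · intro v w
      rw [LinearMap.mk₂_apply, Real.norm_eq_abs, mul_assoc]
      exact hB.bd v w
    · funext p
      rw [LinearMap.mkContinuous₂_apply, LinearMap.mk₂_apply]
  rcases S.eq_empty_or_nonempty with hSe | hSne
  · refine ⟨fun _ _ => 0, fun q hq => ?_⟩
    obtain ⟨B, hB⟩ := hrep q hq
    have h1 : B ∈ closure S := hS (by rw [mem_ofPred_eq, hB]; exact hq)
    rw [hSe, closure_empty] at h1
    exact absurd h1 (notMem_empty _)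
  obtain ⟨Bn, hBn⟩ := hSc.exists_eq_range hSne
  refine ⟨fun n p => Bn n p.1 p.2, fun q hq => ?_⟩
  obtain ⟨B, hB⟩ := hrep q hq
  have h1 : B ∈ closure S := hS (by rw [mem_ofPred_eq, hB]; exact hq)
  obtain ⟨B', hB'S, hB'⟩ :=
    (Metric.mem_closure_iff (α := E →L[ℝ] E →L[ℝ] ℝ) (s := S) (a := B)).1 h1 δ hδ
  rw [hBn] at hB'S
  obtain ⟨n, rfl⟩ := hB'S
  refine ⟨n, fun p => ?_⟩
  rw [← hB]
  have h2 : B p.1 p.2 - Bn n p.1 p.2 = (B - Bn n) p.1 p.2 := by simp
  show |B p.1 p.2 - Bn n p.1 p.2| ≤ δ * om E p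
  rw [h2, ← Real.norm_eq_abs]
  refine ((B - Bn n).le_opNorm₂ p.1 p.2).trans ?_
  have hB'' : ‖B - Bn n‖ < δ := (dist_eq_norm B (Bn n)).symm.trans_lt hB'
  unfold om
  rw [mul_assoc]
  exact mul_le_mul_of_nonneg_right hB''.le (by positivity)

end Pool.Agent.V5helper21.BM
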