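import Pool.Agent.V5helper39.BM.Stm

set_option autoImplicit false

/-!
# Stable separable spaces have strongly separable types (S_STA)
-/

namespace Pool.Agent.V5helper21.BM

open Filter Topology Asymptotics Set
open Pool.Agent.V5helper39.BM

section
variable {E : Type} [NormedAddCommGroup E] [NormedSpace ℝ E]

/-- a dense sequence in the unit ball -/
lemma exists_dense_ball [TopologicalSpace.SeparableSpace E] :
    ∃ D : ℕ → E, (∀ n, ‖D n‖ ≤ 1) ∧ ∀ y : E, ‖y‖ ≤ 1 → ∀ η : ℝ, 0 < η → ∃ n, ‖y - D n‖ < η := by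
  have hne : (Metric.closedBall (0 : E) 1).Nonempty := ⟨0, by simp⟩
  have : Nonempty (Metric.closedBall (0 : E) 1) := hne.to_subtype
  obtain ⟨u, hu⟩ := TopologicalSpace.exists_dense_seq (Metric.closedBall (0 : E) 1)
  refine ⟨fun n => u n, fun n => mem_closedBall_zero_iff.1 (u n).2, fun y hy η hη => ?_⟩
  obtain ⟨z, ⟨n, rfl⟩, hz⟩ := Metric.mem_closure_iff.1 (hu ⟨y, by simpa using hy⟩) η hη
  refine ⟨n, ?_⟩
  rw [Subtype.dist_eq, dist_eq_norm] at hz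
  exact hz

/-- types are limits of sequences -/
lemma typ_seq [TopologicalSpace.SeparableSpace E] {τ : E → ℝ} (hτ : τ ∈ Typ E) :
    ∃ y : ℕ → E, (∀ n, ‖y n‖ ≤ 1) ∧ ∀ x, Tendsto (fun m => ‖x + y m‖) atTop (𝓝 (τ x)) := by
  obtain ⟨D, hD⟩ := TopologicalSpace.exists_dense_seq E
  -- `τ` is 1-Lipschitz
  have hlip : ∀ x x' : E, |τ x - τ x'| ≤ ‖x - x'‖ := by
    have hcl : IsClosed {τ : E → ℝ | ∀ x x' : E, |τ x - τ x'| ≤ ‖x - x'‖} := by
      have : {τ : E → ℝ | ∀ x x' : E, |τ x - τ x'| ≤ ‖x - x'‖} =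
          ⋂ (x : E) (x' : E), {τ : E → ℝ | |τ x - τ x'| ≤ ‖x - x'‖} := by
        ext; simp
      rw [this]
      exact isClosed_iInter fun x => isClosed_iInter fun x' =>
        isClosed_le (by fun_prop) continuous_const
    refine closure_minimal (t := {τ : E → ℝ | ∀ x x' : E, |τ x - τ x'| ≤ ‖x - x'‖}) ?_ hcl hτ
    rintro τ ⟨y, hy, rfl⟩ x x'
    have := abs_norm_sub_norm_le (x + y) (x' + y)
    rwa [add_sub_add_right_eq_sub] at this
  have hex : ∀ m : ℕ, ∃ y : E, ‖y‖ ≤ 1 ∧ ∀ i ∈ Finset.range (m + 1),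
      |‖D i + y‖ - τ (D i)| < 1 / ((m : ℝ) + 1) := by
    intro m
    have hopen : IsOpen {σ : E → ℝ | ∀ i ∈ Finset.range (m + 1),
        |σ (D i) - τ (D i)| < 1 / ((m : ℝ) + 1)} := by
      have : {σ : E → ℝ | ∀ i ∈ Finset.range (m + 1),
        |σ (D i) - τ (D i)| < 1 / ((m : ℝ) + 1)} =
        ⋂ i ∈ Finset.range (m + 1), {σ : E → ℝ | |σ (D i) - τ (D i)| < 1 / ((m : ℝ) + 1)} := by
        ext; simp
      rw [this]
      exact isOpen_biInter_finset fun i _ => isOpen_lt (by fun_prop) continuous_const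
    obtain ⟨σ, hσ, y, hy, rfl⟩ := mem_closure_iff.1 hτ _ hopen
      (by
        intro i _
        simp only [sub_self, abs_zero]
        positivity)
    exact ⟨y, hy, hσ⟩
  choose y hy hyD using hex
  refine ⟨y, hy, fun x => ?_⟩
  rw [Metric.tendsto_atTop]
  intro ε hε
  obtain ⟨_, ⟨i, rfl⟩, hi⟩ := Metric.mem_closure_iff.1 (hD x) (ε / 3) (by positivity)
  rw [dist_eq_norm] at hi
  obtain ⟨N, hN⟩ := exists_nat_one_div_lt (show (0 : ℝ) < ε / 3 by positivity)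
  refine ⟨max N i, fun m hm => ?_⟩
  have h1 := hyD m i (Finset.mem_range.2 (Nat.lt_succ_of_le ((le_max_right _ _).trans hm)))
  have h2 : 1 / ((m : ℝ) + 1) ≤ 1 / ((N : ℝ) + 1) := by
    apply one_div_le_one_div_of_le (by positivity)
    have : (N : ℝ) ≤ m := by exact_mod_cast (le_max_left _ _).trans hm
    linarith
  have h3 := hlip x (D i)
  have h4 := abs_norm_sub_norm_le (x + y m) (D i + y m)
  rw [add_sub_add_right_eq_sub] at h4
  rw [Real.dist_eq]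
  rw [abs_lt] at h1 ⊢
  rw [abs_le] at h3 h4
  constructor <;> linarith [h1.1, h1.2, h3.1, h3.2, h4.1, h4.2]

/-- the key estimate -/
lemma typ_unif (hst : Stable E) {D : ℕ → E} (hD1 : ∀ n, ‖D n‖ ≤ 1)
    (hD : ∀ y : E, ‖y‖ ≤ 1 → ∀ η : ℝ, 0 < η → ∃ n, ‖y - D n‖ < η)
    {τ : E → ℝ} {y : ℕ → E} (hy : ∀ n, ‖y n‖ ≤ 1)
    (hτ : ∀ x, Tendsto (fun m => ‖x + y m‖) atTop (𝓝 (τ x))) {ε : ℝ} (hε : 0 < ε) :
    ∃ k : ℕ, ∀ x x' : E, ‖x‖ ≤ 1 → ‖x'‖ ≤ 1 →
      (∀ i ≤ k, |‖x + D i‖ - ‖x' + D i‖| ≤ 1 / ((k : ℝ) + 1)) → |τ x - τ x'| ≤ ε := by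
  by_contra hcon
  push Not at hcon
  choose x x' hx hx' hd hsep using hcon
  have hτb : ∀ x : E, ‖x‖ ≤ 1 → τ x ∈ Icc (0 : ℝ) 2 := by
    intro x hx
    refine ⟨ge_of_tendsto' (hτ x) fun m => norm_nonneg _, le_of_tendsto' (hτ x) fun m => ?_⟩
    refine (norm_add_le _ _).trans ?_
    linarith [hy m]
  -- compactness
  set S : Set ((ℝ × ℝ) × ((ℕ → ℝ) × (ℕ → ℝ))) :=
    (Icc (0 : ℝ) 2 ×ˢ Icc (0 : ℝ) 2) ×ˢ
      ((Set.univ.pi fun _ : ℕ => Icc (0 : ℝ) 2) ×ˢ (Set.univ.pi fun _ : ℕ => Icc (0 : ℝ) 2)) with hS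
  have hSc : IsCompact S := (isCompact_Icc.prod isCompact_Icc).prod
    ((isCompact_univ_pi fun _ => isCompact_Icc).prod (isCompact_univ_pi fun _ => isCompact_Icc))
  set P : ℕ → (ℝ × ℝ) × ((ℕ → ℝ) × (ℕ → ℝ)) := fun k =>
    ((τ (x k), τ (x' k)), (fun m => ‖x k + y m‖, fun m => ‖x' k + y m‖)) with hP
  have hPS : ∀ k, P k ∈ S := by
    intro k
    have hb : ∀ z : E, ‖z‖ ≤ 1 → ∀ m, ‖z + y m‖ ≤ 2 := by
      intro z hz m
      refine (norm_add_le _ _).trans ?_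
      linarith [hy m]
    refine ⟨⟨hτb _ (hx k), hτb _ (hx' k)⟩, ⟨fun m _ => ⟨norm_nonneg _, hb _ (hx k) m⟩,
      fun m _ => ⟨norm_nonneg _, hb _ (hx' k) m⟩⟩⟩
  obtain ⟨⟨⟨a, a'⟩, ⟨h, h'⟩⟩, -, φ, hφ, hlim⟩ := hSc.tendsto_subseq hPS
  have hl1 : Tendsto (fun k => τ (x (φ k))) atTop (𝓝 a) :=
    ((continuous_fst.comp continuous_fst).tendsto _).comp hlim
  have hl2 : Tendsto (fun k => τ (x' (φ k))) atTop (𝓝 a') :=
    ((continuous_snd.comp continuous_fst).tendsto _).comp hlim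
  have hl3 : ∀ m, Tendsto (fun k => ‖x (φ k) + y m‖) atTop (𝓝 (h m)) := fun m =>
    (((continuous_apply m).comp (continuous_fst.comp continuous_snd)).tendsto _).comp hlim
  have hl4 : ∀ m, Tendsto (fun k => ‖x' (φ k) + y m‖) atTop (𝓝 (h' m)) := fun m =>
    (((continuous_apply m).comp (continuous_snd.comp continuous_snd)).tendsto _).comp hlim
  -- `h = h'`
  have hhh : ∀ m, h m = h' m := by
    intro m
    refine tendsto_nhds_unique ?_ (hl4 m)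
    have h1 : Tendsto (fun k => ‖x (φ k) + y m‖ - ‖x' (φ k) + y m‖) atTop (𝓝 0) := by
      rw [Metric.tendsto_atTop]
      intro η hη
      obtain ⟨i, hi⟩ := hD (y m) (hy m) (η / 4) (by positivity)
      obtain ⟨N, hN⟩ := exists_nat_one_div_lt (show (0 : ℝ) < η / 4 by positivity)
      refine ⟨max N i, fun k hk => ?_⟩
      have hφk : k ≤ φ k := hφ.le_apply
      have h2 := hd (φ k) i ((le_max_right _ _).trans (hk.trans hφk))
      have h3 : 1 / ((φ k : ℝ) + 1) ≤ 1 / ((N : ℝ) + 1) := by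
        apply one_div_le_one_div_of_le (by positivity)
        have : (N : ℝ) ≤ φ k := by exact_mod_cast (le_max_left _ _).trans (hk.trans hφk)
        linarith
      have h4 := abs_norm_sub_norm_le (x (φ k) + y m) (x (φ k) + D i)
      have h5 := abs_norm_sub_norm_le (x' (φ k) + y m) (x' (φ k) + D i)
      rw [add_sub_add_left_eq_sub] at h4 h5
      rw [Real.dist_eq, sub_zero]
      rw [abs_lt]
      rw [abs_le] at h2 h4 h5
      constructor <;> linarith [h2.1, h2.2, h4.1, h4.2, h5.1, h5.2]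
    have h6 := (hl3 m).sub h1
    simpa using h6
  -- limits in `m`
  have hhS : ∀ m, h m ∈ Icc (0 : ℝ) 2 := by
    intro m
    refine ⟨ge_of_tendsto' (hl3 m) fun k => norm_nonneg _, le_of_tendsto' (hl3 m) fun k => ?_⟩
    refine (norm_add_le _ _).trans ?_
    linarith [hy m, hx (φ k)]
  obtain ⟨b, -, ψ, hψ, hlb⟩ := isCompact_Icc.tendsto_subseq hhS
  have hA : a = b := hst (fun k => x (φ k)) (fun m => y (ψ m)) 1 (fun k => hx _) (fun m => hy _)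
    (fun k => τ (x (φ k))) (fun m => h (ψ m)) a b
    (fun k => (hτ (x (φ k))).comp hψ.tendsto_atTop) hl1 (fun m => hl3 (ψ m)) hlb
  have hA' : a' = b := hst (fun k => x' (φ k)) (fun m => y (ψ m)) 1 (fun k => hx' _)
    (fun m => hy _)
    (fun k => τ (x' (φ k))) (fun m => h (ψ m)) a' b
    (fun k => (hτ (x' (φ k))).comp hψ.tendsto_atTop) hl2
    (fun m => by rw [hhh]; exact hl4 (ψ m)) hlb
  have hlast : Tendsto (fun k => |τ (x (φ k)) - τ (x' (φ k))|) atTop (𝓝 |a - a'|) :=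
    (hl1.sub hl2).abs
  have h7 : ε ≤ |a - a'| := ge_of_tendsto' hlast fun k => (hsep (φ k)).le
  rw [hA, hA', sub_self, abs_zero] at h7
  linarith

end

theorem t_STA : S_STA := by
  classical
  intro E _ _ _ hst ε hε
  obtain ⟨D, hD1, hD⟩ := exists_dense_ball (E := E)
  -- rounding
  let rd : (k : ℕ) → E → (Fin (k + 1) → Fin (3 * k + 4)) := fun k x i =>
    Fin.ofNat (3 * k + 4) ⌊((k : ℝ) + 1) * ‖x + D i‖⌋₊
  let I : Type := Σ k : ℕ, ((Fin (k + 1) → Fin (3 * k + 4)) → ℤ)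
  have : Countable I := inferInstanceAs (Countable (Σ k : ℕ, ((Fin (k + 1) → Fin (3 * k + 4)) → ℤ)))
  have : Nonempty I := ⟨⟨0, fun _ => 0⟩⟩
  let ev : I → E → ℝ := fun p x => ε / 2 * (p.2 (rd p.1 x) : ℝ)
  obtain ⟨e, he⟩ := exists_surjective_nat I
  refine ⟨fun n => ev (e n), fun τ hτ => ?_⟩
  obtain ⟨y, hy, hyτ⟩ := typ_seq hτ
  obtain ⟨k, hk⟩ := typ_unif hst hD1 hD hy hyτ (show 0 < ε / 2 by positivity)
  have hrd : ∀ x x' : E, ‖x‖ ≤ 1 → ‖x'‖ ≤ 1 → rd k x = rd k x' →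
      ∀ i ≤ k, |‖x + D i‖ - ‖x' + D i‖| ≤ 1 / ((k : ℝ) + 1) := by
    intro x x' hx hx' heq i hi
    have hk1 : (0 : ℝ) < (k : ℝ) + 1 := by positivity
    have hfl : ∀ z : E, ‖z‖ ≤ 1 → ⌊((k : ℝ) + 1) * ‖z + D i‖⌋₊ < 3 * k + 4 := by
      intro z hz
      rw [Nat.floor_lt (by positivity)]
      have : ‖z + D i‖ ≤ 2 := (norm_add_le _ _).trans (by linarith [hD1 i])
      push_cast
      nlinarith
    have h1 := congrArg Fin.val (congrFun heq ⟨i, Nat.lt_succ_of_le hi⟩)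
    simp only [rd, Fin.ofNat, Nat.mod_eq_of_lt (hfl x hx), Nat.mod_eq_of_lt (hfl x' hx')] at h1
    have h2 := Nat.floor_le (show 0 ≤ ((k : ℝ) + 1) * ‖x + D i‖ by positivity)
    have h3 := Nat.lt_floor_add_one (((k : ℝ) + 1) * ‖x + D i‖)
    have h4 := Nat.floor_le (show 0 ≤ ((k : ℝ) + 1) * ‖x' + D i‖ by positivity)
    have h5 := Nat.lt_floor_add_one (((k : ℝ) + 1) * ‖x' + D i‖)
    rw [h1] at h2 h3
    rw [abs_le]
    have h6 : -1 ≤ (‖x + D i‖ - ‖x' + D i‖) * ((k : ℝ) + 1) := by nlinarith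
    have h7 : (‖x + D i‖ - ‖x' + D i‖) * ((k : ℝ) + 1) ≤ 1 := by nlinarith
    constructor
    · rw [← neg_div, div_le_iff₀ hk1]
      exact h6
    · rw [le_div_iff₀ hk1]
      exact h7
  let g : (Fin (k + 1) → Fin (3 * k + 4)) → ℤ := fun r =>
    if h : ∃ x : E, ‖x‖ ≤ 1 ∧ rd k x = r then ⌊τ h.choose / (ε / 2)⌋ else 0
  obtain ⟨n, hn⟩ := he ⟨k, g⟩
  refine ⟨n, fun x hx => ?_⟩
  have hev : ev (e n) x = ε / 2 * (g (rd k x) : ℝ) := by rw [hn]
  show |τ x - ev (e n) x| ≤ ε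
  rw [hev]
  have hex : ∃ z : E, ‖z‖ ≤ 1 ∧ rd k z = rd k x := ⟨x, hx, rfl⟩
  have hg : g (rd k x) = ⌊τ hex.choose / (ε / 2)⌋ := by
    simp only [g]
    rw [dif_pos hex]
  rw [hg]
  have hz := hex.choose_spec
  set z := hex.choose with hzd
  have h1 := hk x z hx hz.1 (hrd x z hx hz.1 hz.2.symm)
  have h2 := Int.floor_le (τ z / (ε / 2))
  have h3 := Int.lt_floor_add_one (τ z / (ε / 2))
  have hε2 : 0 < ε / 2 := by positivity
  rw [le_div_iff₀ hε2] at h2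
  rw [div_lt_iff₀ hε2] at h3
  rw [abs_le] at h1 ⊢
  constructor <;> nlinarith [h1.1, h1.2]

end Pool.Agent.V5helper21.BM
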