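import Pool.Agent.V5helper21.BM.FPH

set_option autoImplicit false

/-!
# Strongly separable types and a uniform second order expansion give separability of the closure
of the Hessians (S_TYP)
-/

namespace Pool.Agent.V5helper21.BM

open Filter Topology Asymptotics Set
open Pool.Agent.V5helper39.BM

section
variable {E : Type} [NormedAddCommGroup E] [NormedSpace ℝ E]
variable {f : E → E →L[ℝ] ℝ} {A : E → E →L[ℝ] E →L[ℝ] ℝ} {c C : ℝ}

lemma Bil.add_self {q : E × E → ℝ} (hB : Bil E c C q) (v w : E) :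
    q (v + w, v + w) = q (v, v) + 2 * q (v, w) + q (w, w) := by
  rw [hB.addl, hB.addr, hB.addr, hB.symm w v]; ring

lemma Bil.sub_self {q : E × E → ℝ} (hB : Bil E c C q) (v w : E) :
    q (v - w, v - w) = q (v, v) - 2 * q (v, w) + q (w, w) := by
  have hxy : v - w = v + (-1 : ℝ) • w := by rw [neg_one_smul, sub_eq_add_neg]
  rw [hxy, hB.addl, hB.addr, hB.addr, hB.smull, hB.smulr, hB.smulr, hB.smull, hB.symm w v]
  ring

/-- every point of the closure of the Hessians has a type -/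
lemma exists_type (h : HF E f A c C) {q : E × E → ℝ} (hq : q ∈ closure (HS E A)) :
    ∃ τ : E → ℝ, (q, τ) ∈ closure {p : (E × E → ℝ) × (E → ℝ) | ∃ x : E, ‖x‖ = 1 ∧
      p = (fun p : E × E => A x p.1 p.2, fun u => ‖x + u‖)} := by
  set P : Set ((E × E → ℝ) × (E → ℝ)) := {p | ∃ x : E, ‖x‖ = 1 ∧
      p = (fun p : E × E => A x p.1 p.2, fun u => ‖x + u‖)} with hP
  have hc1 : IsCompact (Set.univ.pi fun z : E × E => Set.Icc (-(C * (‖z.1‖ * ‖z.2‖)))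
      (C * (‖z.1‖ * ‖z.2‖))) := isCompact_univ_pi fun z => isCompact_Icc
  have hc2 : IsCompact (Set.univ.pi fun u : E => Set.Icc (0 : ℝ) (1 + ‖u‖)) :=
    isCompact_univ_pi fun z => isCompact_Icc
  have hc := hc1.prod hc2
  have hPs : P ⊆ (Set.univ.pi fun z : E × E => Set.Icc (-(C * (‖z.1‖ * ‖z.2‖)))
      (C * (‖z.1‖ * ‖z.2‖))) ×ˢ (Set.univ.pi fun u : E => Set.Icc (0 : ℝ) (1 + ‖u‖)) := by
    rintro p ⟨x, hx, rfl⟩
    refine ⟨fun z _ => abs_le.1 ((hs_bil h ⟨x, hx, rfl⟩ : Bil E c C _).bd z.1 z.2),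
      fun u _ => ⟨norm_nonneg _, ?_⟩⟩
    refine (norm_add_le _ _).trans ?_
    rw [hx]
  have hcl : IsCompact (closure P) := hc.of_isClosed_subset isClosed_closure
    (closure_minimal hPs hc.isClosed)
  have himg : IsCompact (Prod.fst '' closure P) := hcl.image continuous_fst
  have hsub : closure (HS E A) ⊆ Prod.fst '' closure P := by
    refine closure_minimal ?_ himg.isClosed
    rintro q ⟨x, hx, rfl⟩
    exact ⟨_, subset_closure ⟨x, hx, rfl⟩, rfl⟩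
  obtain ⟨⟨q', τ⟩, h1, rfl⟩ := hsub hq
  exact ⟨τ, h1⟩

end

theorem t_TYP : S_TYP := by
  intro E _ _ f A c C h hUE hST δ hδ
  obtain ⟨δ₁, hδ₁, hexp⟩ := hUE (δ / 4) (by positivity)
  set t : ℝ := min (δ₁ / 2) (1 / 2) with ht
  have ht0 : 0 < t := lt_min (by positivity) (by norm_num)
  have ht1 : t ≤ δ₁ / 2 := min_le_left _ _
  have ht2 : t ≤ 1 / 2 := min_le_right _ _
  set ε : ℝ := min 1 (δ / 5 * t ^ 2) with hε
  have hε0 : 0 < ε := lt_min one_pos (by positivity)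
  have hε1 : ε ≤ 1 := min_le_left _ _
  have hε2 : ε ≤ δ / 5 * t ^ 2 := min_le_right _ _
  obtain ⟨cn, hcn⟩ := hST ε hε0
  -- the centres
  set g : ℕ → E → ℝ := fun n u => (cn n (t • u) ^ 2 + cn n (-(t • u)) ^ 2 - 2) / (2 * t ^ 2) with hg
  refine ⟨fun n p => ‖p.1‖ * ‖p.2‖ * ((g n (‖p.1‖⁻¹ • p.1 + ‖p.2‖⁻¹ • p.2) -
    g n (‖p.1‖⁻¹ • p.1 - ‖p.2‖⁻¹ • p.2)) / 4), fun q hq => ?_⟩
  have hB := hs_closure_bil h hq
  obtain ⟨τ, hτ⟩ := exists_type h hq
  -- the properties of `τ`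
  have hτT : τ ∈ Typ E := by
    have h1 : Set.MapsTo (Prod.snd : (E × E → ℝ) × (E → ℝ) → (E → ℝ))
        {p : (E × E → ℝ) × (E → ℝ) | ∃ x : E, ‖x‖ = 1 ∧
          p = (fun p : E × E => A x p.1 p.2, fun u => ‖x + u‖)}
        {τ : E → ℝ | ∃ y : E, ‖y‖ ≤ 1 ∧ τ = fun x => ‖x + y‖} := by
      rintro p ⟨x, hx, rfl⟩
      refine ⟨x, hx.le, ?_⟩
      funext u
      rw [add_comm]
    exact map_mem_closure continuous_snd hτ h1
  have hτ1 : (∀ u : E, ‖u‖ ≤ 2 → |τ (t • u) ^ 2 + τ (-(t • u)) ^ 2 - 2 - 2 * t ^ 2 * q (u, u)|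
      ≤ 2 * δ * t ^ 2) ∧ ∀ u : E, |τ u| ≤ 1 + ‖u‖ := by
    have hclosed : IsClosed {p : (E × E → ℝ) × (E → ℝ) |
        (∀ u : E, ‖u‖ ≤ 2 → |p.2 (t • u) ^ 2 + p.2 (-(t • u)) ^ 2 - 2 - 2 * t ^ 2 * p.1 (u, u)|
          ≤ 2 * δ * t ^ 2) ∧ ∀ u : E, |p.2 u| ≤ 1 + ‖u‖} := by
      have : {p : (E × E → ℝ) × (E → ℝ) |
        (∀ u : E, ‖u‖ ≤ 2 → |p.2 (t • u) ^ 2 + p.2 (-(t • u)) ^ 2 - 2 - 2 * t ^ 2 * p.1 (u, u)|
          ≤ 2 * δ * t ^ 2) ∧ ∀ u : E, |p.2 u| ≤ 1 + ‖u‖} =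
        (⋂ (u : E) (_ : ‖u‖ ≤ 2), {p : (E × E → ℝ) × (E → ℝ) |
          |p.2 (t • u) ^ 2 + p.2 (-(t • u)) ^ 2 - 2 - 2 * t ^ 2 * p.1 (u, u)| ≤ 2 * δ * t ^ 2}) ∩
        ⋂ (u : E), {p : (E × E → ℝ) × (E → ℝ) | |p.2 u| ≤ 1 + ‖u‖} := by
        ext p; simp
      rw [this]
      refine IsClosed.inter ?_ ?_
      · exact isClosed_iInter fun u => isClosed_iInter fun _ =>
          isClosed_le (by fun_prop) continuous_const
      · exact isClosed_iInter fun u => isClosed_le (by fun_prop) continuous_const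
    refine closure_minimal (t := {p : (E × E → ℝ) × (E → ℝ) |
        (∀ u : E, ‖u‖ ≤ 2 → |p.2 (t • u) ^ 2 + p.2 (-(t • u)) ^ 2 - 2 - 2 * t ^ 2 * p.1 (u, u)|
          ≤ 2 * δ * t ^ 2) ∧ ∀ u : E, |p.2 u| ≤ 1 + ‖u‖}) ?_ hclosed hτ
    rintro p ⟨x, hx, rfl⟩
    refine ⟨fun u hu => ?_, fun u => ?_⟩
    · have hn : ‖t • u‖ = t * ‖u‖ := by rw [norm_smul, Real.norm_of_nonneg ht0.le]
      have hn1 : ‖t • u‖ ≤ δ₁ := by
        rw [hn]
        nlinarith [norm_nonneg u]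
      have h1 := hexp x hx (t • u) hn1
      have h2 := hexp x hx (-(t • u)) (by rw [norm_neg]; exact hn1)
      rw [norm_neg] at h2
      simp only [map_neg, neg_apply, map_smul, smul_apply, smul_eq_mul, hn] at h1 h2
      have h3 : δ / 4 * (t * ‖u‖) ^ 2 ≤ δ * t ^ 2 := by
        have : ‖u‖ ^ 2 ≤ 4 := by nlinarith [norm_nonneg u]
        have h4 : 0 ≤ δ / 4 * t ^ 2 := by positivity
        nlinarith
      rw [abs_le] at h1 h2 ⊢
      dsimp only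
      constructor
      · linarith [h1.1, h2.1]
      · linarith [h1.2, h2.2]
    · dsimp only
      rw [abs_of_nonneg (norm_nonneg _)]
      refine (norm_add_le _ _).trans ?_
      rw [hx]
  obtain ⟨n, hn⟩ := hcn τ hτT
  refine ⟨n, ?_⟩
  -- the estimate for the quadratic form
  have hquad : ∀ u : E, ‖u‖ ≤ 2 → |q (u, u) - g n u| ≤ 2 * δ := by
    intro u hu
    have hnu : ‖t • u‖ ≤ 1 := by
      rw [norm_smul, Real.norm_of_nonneg ht0.le]
      nlinarith [norm_nonneg u]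
    have h1 := hτ1.1 u hu
    have h2 := hn (t • u) hnu
    have h3 := hn (-(t • u)) (by rw [norm_neg]; exact hnu)
    have h4 := hτ1.2 (t • u)
    have h5 := hτ1.2 (-(t • u))
    rw [norm_neg] at h5
    have key : ∀ a b : ℝ, |a| ≤ 2 → |a - b| ≤ ε → |a ^ 2 - b ^ 2| ≤ δ * t ^ 2 := by
      intro a b ha hab
      have h6 : a ^ 2 - b ^ 2 = (a - b) * (2 * a - (a - b)) := by ring
      rw [h6, abs_mul]
      have h7 : |2 * a - (a - b)| ≤ 5 := by
        refine (abs_sub _ _).trans ?_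
        rw [abs_mul, abs_two]
        linarith
      calc |a - b| * |2 * a - (a - b)| ≤ ε * 5 :=
            mul_le_mul hab h7 (abs_nonneg _) hε0.le
        _ ≤ δ * t ^ 2 := by nlinarith
    have h6 := key _ _ (h4.trans (by linarith)) h2
    have h7 := key _ _ (h5.trans (by linarith)) h3
    have ht2' : 0 < 2 * t ^ 2 := by positivity
    have h8 : q (u, u) - g n u = (2 * t ^ 2 * q (u, u) -
        (cn n (t • u) ^ 2 + cn n (-(t • u)) ^ 2 - 2)) / (2 * t ^ 2) := by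
      rw [hg]; field_simp
    rw [h8, abs_div, abs_of_pos ht2', div_le_iff₀ ht2']
    rw [abs_le] at h1 h6 h7 ⊢
    constructor
    · linarith [h1.1, h1.2, h6.1, h6.2, h7.1, h7.2]
    · linarith [h1.1, h1.2, h6.1, h6.2, h7.1, h7.2]
  rintro ⟨v, w⟩
  show |q (v, w) - ‖v‖ * ‖w‖ * ((g n (‖v‖⁻¹ • v + ‖w‖⁻¹ • w) -
    g n (‖v‖⁻¹ • v - ‖w‖⁻¹ • w)) / 4)| ≤ δ * (‖v‖ * ‖w‖)
  by_cases hv : v = 0
  · have : q (v, w) = 0 := by
      have h1 := hB.smull 0 v w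
      rw [zero_smul] at h1
      rw [hv, h1]; simp
    rw [this, hv]; simp
  by_cases hw : w = 0
  · have : q (v, w) = 0 := by
      have h1 := hB.smulr 0 v w
      rw [zero_smul] at h1
      rw [hw, h1]; simp
    rw [this, hw]; simp
  have hv' : ‖v‖ ≠ 0 := norm_ne_zero_iff.2 hv
  have hw' : ‖w‖ ≠ 0 := norm_ne_zero_iff.2 hw
  set v' : E := ‖v‖⁻¹ • v with hvd
  set w' : E := ‖w‖⁻¹ • w with hwd
  have hv1 : ‖v'‖ = 1 := by rw [hvd, norm_smul, norm_inv, norm_norm, inv_mul_cancel₀ hv']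
  have hw1 : ‖w'‖ = 1 := by rw [hwd, norm_smul, norm_inv, norm_norm, inv_mul_cancel₀ hw']
  have hp := hquad (v' + w') ((norm_add_le _ _).trans (by rw [hv1, hw1]; norm_num))
  have hm := hquad (v' - w') ((norm_sub_le _ _).trans (by rw [hv1, hw1]; norm_num))
  have e1 := hB.add_self v' w'
  have e2 := hB.sub_self v' w'
  have e3 : q (v, w) = ‖v‖ * ‖w‖ * q (v', w') := by
    have h1 : v = ‖v‖ • v' := by rw [hvd, smul_smul, mul_inv_cancel₀ hv', one_smul]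
    have h2 : w = ‖w‖ • w' := by rw [hwd, smul_smul, mul_inv_cancel₀ hw', one_smul]
    conv_lhs => rw [h1, h2, hB.smull, hB.smulr]
    ring
  rw [e3, ← mul_sub, abs_mul, abs_of_nonneg (by positivity : 0 ≤ ‖v‖ * ‖w‖), mul_comm δ]
  refine mul_le_mul_of_nonneg_left ?_ (by positivity)
  have e4 : q (v', w') - (g n (v' + w') - g n (v' - w')) / 4 =
      ((q (v' + w', v' + w') - g n (v' + w')) - (q (v' - w', v' - w') - g n (v' - w'))) / 4 := by
    rw [e1, e2]; ring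
  rw [e4, abs_div, abs_of_pos (by norm_num : (0:ℝ) < 4), div_le_iff₀ (by norm_num : (0:ℝ) < 4)]
  refine (abs_sub _ _).trans ?_
  linarith

end Pool.Agent.V5helper21.BM
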